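import Mathlib
import Pool.Agent.Helper52.Eden.Cases

set_option autoImplicit false

open MeasureTheory ProbabilityTheory Filter Topology
open scoped Pointwise

namespace Pool.Agent.Results.MP_edae2b_pr.NotBallTwentyEight

/-- The nearest-neighbour cubic lattice `ℤ^d`. -/
def lattice (d : ℕ) : SimpleGraph (Fin d → ℤ) :=
  SimpleGraph.fromRel (fun y z : Fin d → ℤ => ∑ i, |y i - z i| = 1)

/-- The passage time `T(u,v)`: infimum over the lattice paths from `u` to `v` of the sum of the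
edge passage times `x`. -/
noncomputable def passage {d : ℕ} (x : Sym2 (Fin d → ℤ) → ℝ) (u v : Fin d → ℤ) : ℝ :=
  ⨅ p : (lattice d).Walk u v, (p.edges.map x).sum

/-- `A_t = {v : T(0,v) ≤ t}`. -/
def reached {d : ℕ} (x : Sym2 (Fin d → ℤ) → ℝ) (t : ℝ) : Set (Fin d → ℤ) :=
  {v | passage x 0 v ≤ t}

/-- `A^F = A + [-1/2,1/2]^d`. -/
def fat {d : ℕ} (A : Set (Fin d → ℤ)) : Set (EuclideanSpace ℝ (Fin d)) :=
  {z | ∃ v ∈ A, ∀ i, |z i - (v i : ℝ)| ≤ 1 / 2}

/-- `K` is the limit shape: for every `0 < ε < 1` the probability that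
`(1-ε) K ⊆ s⁻¹ A_s^F ⊆ (1+ε) K` for all `s ≥ t` tends to `1` as `t → ∞`. -/
def IsLimitShape {d : ℕ} {Ω : Type} [MeasurableSpace Ω] (P : Measure Ω)
    (X : Sym2 (Fin d → ℤ) → Ω → ℝ) (K : Set (EuclideanSpace ℝ (Fin d))) : Prop :=
  ∀ ε : ℝ, 0 < ε → ε < 1 → Tendsto (fun t : ℝ => P {ω | ∀ s : ℝ, t ≤ s →
      (1 - ε) • K ⊆ s⁻¹ • fat (reached (fun e => X e ω) s) ∧
      s⁻¹ • fat (reached (fun e => X e ω) s) ⊆ (1 + ε) • K}) atTop (𝓝 1)

/-- For `28 ≤ d ≤ 34` the limit shape of first passage percolation on `ℤ^d` with i.i.d.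
exponential passage times of parameter `1` is not a Euclidean ball. -/
theorem result (d : ℕ) (hd : 28 ≤ d) (hd' : d ≤ 34)
    (Ω : Type) [MeasurableSpace Ω] (P : Measure Ω) [IsProbabilityMeasure P]
    (X : Sym2 (Fin d → ℤ) → Ω → ℝ) (hX : iIndepFun X P)
    (hm : ∀ e, Measurable (X e) ∧ P.map (X e) = expMeasure 1)
    (K : Set (EuclideanSpace ℝ (Fin d))) (hK : IsLimitShape P X K) :
    ¬ ∃ r : ℝ, 0 < r ∧ K = Metric.closedBall 0 r := by
  rintro ⟨r, hr, hKr⟩
  have hK' : Pool.Agent.Helper52.Eden.IsLimitShape P X K := hK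
  clear hK
  interval_cases d
  · exact Pool.Agent.Helper52.Eden.case28 P X hX hm K hK' r hr hKr
  · exact Pool.Agent.Helper52.Eden.case29 P X hX hm K hK' r hr hKr
  · exact Pool.Agent.Helper52.Eden.case30 P X hX hm K hK' r hr hKr
  · exact Pool.Agent.Helper52.Eden.case31 P X hX hm K hK' r hr hKr
  · exact Pool.Agent.Helper52.Eden.case32 P X hX hm K hK' r hr hKr
  · exact Pool.Agent.Helper52.Eden.case33 P X hX hm K hK' r hr hKr
  · exact Pool.Agent.Helper52.Eden.case34 P X hX hm K hK' r hr hKr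

end Pool.Agent.Results.MP_edae2b_pr.NotBallTwentyEight
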